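import Pool.Agent.helper20.Sz.Defs

/-!
# Pages of the spectral sequence, with named module structures

`FC.E k a b` is the page `E^k = Z^k_a / (Z^{k-1}_{a+1} + d Z^{k-1}_{a-k+1})` in filtration degree `a`
and internal degree `b`; it is definitionally the quotient `FC.Page k a b` of `Defs.lean`.
-/

namespace Pool.Agent.helper20.Sz

namespace FC

variable (C : FC) (k : ℕ) (a b : ℤ)

/-- the vector space `Z^k_a` (in internal degree `b`) -/
def Cyc : Type := C.Z k a b

instance cycGroup : AddCommGroup (C.Cyc k a b) := (C.Z k a b).addCommGroup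

instance cycModule : Module (ZMod 2) (C.Cyc k a b) := (C.Z k a b).module

/-- the elements of `Z^k_a` which lie in `Z^{k-1}_{a+1} + d Z^{k-1}_{a-k+1}` -/
def Bnd : Submodule (ZMod 2) (C.Cyc k a b) := (C.Bd k a b).comap (C.Z k a b).subtype

/-- The page `E^k = Z^k_a / (Z^{k-1}_{a+1} + d Z^{k-1}_{a-k+1})`. -/
def E : Type := C.Cyc k a b ⧸ C.Bnd k a b

instance eGroup : AddCommGroup (C.E k a b) := Submodule.Quotient.addCommGroup (C.Bnd k a b)

instance eModule : Module (ZMod 2) (C.E k a b) := Submodule.Quotient.module (C.Bnd k a b)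

end FC

/-- The page `E^k` of a based complex in homological degree `h` and quantum degree `q`. -/
noncomputable abbrev Based.E (B : Based) (k : ℕ) (h q : ℤ) : Type := B.fc.E k h (q - 2 * h)

end Pool.Agent.helper20.Sz
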