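import Pool.Agent.helper20.Sz.Sys

/-! Module SZ-B1: basic surgery calculus. -/

open scoped symmDiff

namespace Pool.Agent.helper20.Sz
namespace B1
variable {X E : Type} [DecidableEq X]

theorem sd_cancel (v G : Finset X) : (v ∆ G) ∆ G = v := by
  rw [symmDiff_assoc, symmDiff_self]; exact symmDiff_bot v

theorem sd_insert (v G : Finset X) {c : X} (hc : c ∉ G) : v ∆ (insert c G) = (v ∆ {c}) ∆ G := by
  rw [symmDiff_assoc]
  congr 1
  ext x
  simp only [Finset.mem_insert, Finset.mem_symmDiff, Finset.mem_singleton]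
  by_cases h : x = c
  · subst h; simp [hc]
  · simp [h]

theorem sd_insert' (v G : Finset X) {c : X} (hc : c ∉ G) : v ∆ (insert c G) = (v ∆ G) ∆ {c} := by
  rw [sd_insert v G hc, symmDiff_assoc, symmDiff_assoc, symmDiff_comm {c} G]

theorem sd_split (v : Finset X) {H G : Finset X} (h : H ⊆ G) : v ∆ G = (v ∆ H) ∆ (G \ H) := by
  rw [symmDiff_assoc]
  congr 1
  ext x
  simp only [Finset.mem_symmDiff, Finset.mem_sdiff]
  constructor
  · intro hx
    by_cases h' : x ∈ H
    · left; exact ⟨h', fun h'' => h''.2 h'⟩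
    · right; exact ⟨⟨hx, h'⟩, h'⟩
  · rintro (⟨h1, _⟩ | ⟨⟨h1, _⟩, _⟩)
    · exact h h1
    · exact h1

section nofin
variable {K : Cube X E}

theorem refl (hK : K.IsCore) (v : Finset X) (x : E) : K.same v x x := (hK.eqv v).refl x

theorem symm (hK : K.IsCore) {v : Finset X} {x y : E} (h : K.same v x y) : K.same v y x :=
  (hK.eqv v).symm h

theorem trans (hK : K.IsCore) {v : Finset X} {x y z : E} (h : K.same v x y)
    (h' : K.same v y z) : K.same v x z := (hK.eqv v).trans h h'

/-- splitting refines -/
theorem finer1 (hK : K.IsCore) {v : Finset X} {c : X} (h : K.Loop v c) {x y : E}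
    (hxy : K.same (v ∆ {c}) x y) : K.same v x y := by
  have h1 := hK.split v c h
  have h2 := hK.merge (v ∆ {c}) c h1 x y
  rw [sd_cancel] at h2
  exact h2.2 (Or.inl hxy)

/-- merging coarsens -/
theorem coarser1 (hK : K.IsCore) {v : Finset X} {c : X} (h : ¬ K.Loop v c) {x y : E}
    (hxy : K.same v x y) : K.same (v ∆ {c}) x y := (hK.merge v c h x y).2 (Or.inl hxy)

theorem loop_of_nonloop (hK : K.IsCore) {v : Finset X} {c : X} (h : ¬ K.Loop v c) :
    K.Loop (v ∆ {c}) c := by
  refine (hK.merge v c h _ _).2 (Or.inr (Or.inl ⟨refl hK _ _, refl hK _ _⟩))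

theorem loop_flip (hK : K.IsCore) {v : Finset X} {c : X} : K.Loop (v ∆ {c}) c ↔ ¬ K.Loop v c :=
  ⟨fun h h' => hK.split v c h' h, loop_of_nonloop hK⟩

theorem inv_flip1 (hK : K.IsCore) {α : Type} (f : E → α) (v : Finset X) (c : X)
    (hf : ∀ x y, K.same v x y → f x = f y) (hc : f (K.tail c) = f (K.head c)) :
    ∀ x y, K.same (v ∆ {c}) x y → f x = f y := by
  intro x y hxy
  by_cases h : K.Loop v c
  · exact hf x y (finer1 hK h hxy)
  · rcases (hK.merge v c h x y).1 hxy with h1 | ⟨h1, h2⟩ | ⟨h1, h2⟩
    · exact hf x y h1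
    · rw [hf _ _ h1, hc, hf _ _ h2]
    · rw [hf _ _ h1, ← hc, hf _ _ h2]

theorem inv_flip (hK : K.IsCore) {α : Type} (f : E → α) (v G : Finset X)
    (hf : ∀ x y, K.same v x y → f x = f y) (hG : ∀ c ∈ G, f (K.tail c) = f (K.head c)) :
    ∀ x y, K.same (v ∆ G) x y → f x = f y := by
  induction G using Finset.induction_on generalizing v with
  | empty =>
    have : v ∆ (∅ : Finset X) = v := symmDiff_bot v
    rw [this]; exact hf
  | insert c G hc ih =>
    rw [sd_insert v G hc]
    exact ih (v ∆ {c}) (inv_flip1 hK f v c hf (hG c (Finset.mem_insert_self _ _)))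
      (fun c' hc' => hG c' (Finset.mem_insert_of_mem hc'))

end nofin

variable [Finite E] {K : Cube X E}

theorem num_flip_nonloop (hK : K.IsCore) {v : Finset X} {c : X} (h : ¬ K.Loop v c) :
    K.num (v ∆ {c}) + 1 = K.num v := by
  classical
  -- A := classes of v different from [head c]
  let s : Setoid E := ⟨K.same v, hK.eqv v⟩
  let s' : Setoid E := ⟨K.same (v ∆ {c}), hK.eqv _⟩
  have e1 : ∀ x y, (Quot.mk (K.same v) x = Quot.mk (K.same v) y) ↔ K.same v x y := by
    intro x y
    exact ⟨fun h => Quotient.exact (s := s) h, fun h => Quot.sound h⟩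
  have e2 : ∀ x y, (Quot.mk (K.same (v ∆ {c})) x = Quot.mk (K.same (v ∆ {c})) y) ↔
      K.same (v ∆ {c}) x y := by
    intro x y
    exact ⟨fun h => Quotient.exact (s := s') h, fun h => Quot.sound h⟩
  let b : Quot (K.same v) := Quot.mk _ (K.head c)
  let g : Quot (K.same v) → Quot (K.same (v ∆ {c})) :=
    Quot.lift (fun x => Quot.mk _ x) (fun x y hxy => Quot.sound (coarser1 hK h hxy))
  let G : {z : Quot (K.same v) // z ≠ b} → Quot (K.same (v ∆ {c})) := fun z => g z.1
  have hG : Function.Bijective G := by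
    constructor
    · rintro ⟨z, hz⟩ ⟨w, hw⟩ hzw
      apply Subtype.ext
      induction z using Quot.ind with | _ x =>
      induction w using Quot.ind with | _ y =>
      have h1 : K.same (v ∆ {c}) x y := (e2 x y).1 hzw
      have hx : ¬ K.same v x (K.head c) := fun h' => hz ((e1 _ _).2 h')
      have hy : ¬ K.same v y (K.head c) := fun h' => hw ((e1 _ _).2 h')
      rcases (hK.merge v c h x y).1 h1 with h2 | ⟨h2, h3⟩ | ⟨h2, h3⟩
      · exact (e1 _ _).2 h2
      · exact absurd (symm hK h3) hy
      · exact absurd h2 hx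
    · intro w
      induction w using Quot.ind with | _ y =>
      by_cases hy : K.same v y (K.head c)
      · refine ⟨⟨Quot.mk _ (K.tail c), fun h' => h ((e1 _ _).1 h')⟩, ?_⟩
        refine (e2 _ _).2 ?_
        exact trans hK (loop_of_nonloop hK h) (coarser1 hK h (symm hK hy))
      · exact ⟨⟨Quot.mk _ y, fun h' => hy ((e1 _ _).1 h')⟩, rfl⟩
  haveI : Fintype (Quot (K.same v)) := Fintype.ofFinite _
  have hcard : Nat.card {z : Quot (K.same v) // z ≠ b} = K.num (v ∆ {c}) :=
    Nat.card_congr (Equiv.ofBijective G hG)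
  rw [← hcard, Nat.card_eq_fintype_card, Fintype.card_subtype_compl, Fintype.card_subtype_eq]
  have hpos : 0 < Fintype.card (Quot (K.same v)) := Fintype.card_pos_iff.2 ⟨b⟩
  unfold Cube.num
  rw [Nat.card_eq_fintype_card]
  omega

theorem num_flip_loop (hK : K.IsCore) {v : Finset X} {c : X} (h : K.Loop v c) :
    K.num (v ∆ {c}) = K.num v + 1 := by
  have := num_flip_nonloop hK (v := v ∆ {c}) (c := c) (hK.split v c h)
  rw [sd_cancel] at this
  omega

theorem num_le (hK : K.IsCore) (v G : Finset X) : K.num (v ∆ G) ≤ K.num v + G.card := by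
  induction G using Finset.induction_on generalizing v with
  | empty =>
    have : v ∆ (∅ : Finset X) = v := symmDiff_bot v
    rw [this]; simp
  | insert c G hc ih =>
    rw [sd_insert v G hc, Finset.card_insert_of_notMem hc]
    have h1 := ih (v ∆ {c})
    by_cases h : K.Loop v c
    · have := num_flip_loop hK h; omega
    · have := num_flip_nonloop hK h; omega

theorem num_ge (hK : K.IsCore) (v G : Finset X) : K.num v ≤ K.num (v ∆ G) + G.card := by
  have := num_le hK (v ∆ G) G
  rwa [sd_cancel] at this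

theorem spl_iff (hK : K.IsCore) {v H G : Finset X} (h : H ⊆ G) :
    K.Spl v G ↔ K.Spl v H ∧ K.Spl (v ∆ H) (G \ H) := by
  unfold Cube.Spl
  rw [sd_split v h]
  have h1 := num_le hK v H
  have h2 := num_le hK (v ∆ H) (G \ H)
  have h3 : G.card = H.card + (G \ H).card := by
    rw [Finset.card_sdiff_of_subset h]
    have := Finset.card_le_card h
    omega
  omega

theorem mrg_iff (hK : K.IsCore) {v H G : Finset X} (h : H ⊆ G) :
    K.Mrg v G ↔ K.Mrg v H ∧ K.Mrg (v ∆ H) (G \ H) := by
  unfold Cube.Mrg
  rw [sd_split v h]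
  have h1 := num_ge hK v H
  have h2 := num_ge hK (v ∆ H) (G \ H)
  have h3 : G.card = H.card + (G \ H).card := by
    rw [Finset.card_sdiff_of_subset h]
    have := Finset.card_le_card h
    omega
  omega

theorem spl_single (hK : K.IsCore) {v : Finset X} {c : X} : K.Spl v {c} ↔ K.Loop v c := by
  unfold Cube.Spl
  by_cases h : K.Loop v c
  · have := num_flip_loop hK h; simp [this, h]
  · have := num_flip_nonloop hK h
    simp only [Finset.card_singleton, h, iff_false]; omega

theorem mrg_single (hK : K.IsCore) {v : Finset X} {c : X} : K.Mrg v {c} ↔ ¬ K.Loop v c := by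
  unfold Cube.Mrg
  by_cases h : K.Loop v c
  · have := num_flip_loop hK h
    simp only [Finset.card_singleton, h, not_true, iff_false]; omega
  · have := num_flip_nonloop hK h
    simp only [Finset.card_singleton, h, not_false_iff, iff_true]; omega

theorem spl_finer (hK : K.IsCore) {v G : Finset X} (h : K.Spl v G) :
    ∀ x y, K.same (v ∆ G) x y → K.same v x y := by
  induction G using Finset.induction_on generalizing v with
  | empty =>
    have : v ∆ (∅ : Finset X) = v := symmDiff_bot v
    rw [this]; exact fun _ _ h => h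
  | insert c G hc ih =>
    have h1 := (spl_iff hK (H := {c}) (G := insert c G) (by simp)).1 h
    have h2 : insert c G \ {c} = G := by
      rw [Finset.sdiff_singleton_eq_erase, Finset.erase_insert hc]
    rw [h2] at h1
    intro x y hxy
    rw [sd_insert v G hc] at hxy
    exact finer1 hK ((spl_single hK).1 h1.1) (ih h1.2 x y hxy)

theorem mrg_coarser (hK : K.IsCore) {v G : Finset X} (h : K.Mrg v G) :
    ∀ x y, K.same v x y → K.same (v ∆ G) x y := by
  have h' : K.Spl (v ∆ G) G := by
    unfold Cube.Spl Cube.Mrg at *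
    rw [sd_cancel]; omega
  have := spl_finer hK h'
  rw [sd_cancel] at this
  exact this

theorem spl_loop (hK : K.IsCore) {v G : Finset X} (h : K.Spl v G) :
    ∀ c ∈ G, K.Loop v c ∧ ¬ K.Loop (v ∆ G) c := by
  intro c hc
  have h1 := (spl_iff hK (H := {c}) (G := G) (by simpa using hc)).1 h
  refine ⟨(spl_single hK).1 h1.1, ?_⟩
  have h2 := (spl_iff hK (H := G.erase c) (G := G) (Finset.erase_subset _ _)).1 h
  have h3 : G \ G.erase c = {c} := by
    ext x; simp only [Finset.mem_sdiff, Finset.mem_erase, Finset.mem_singleton]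
    constructor
    · rintro ⟨h1, h2⟩; by_contra h'; exact h2 ⟨h', h1⟩
    · rintro rfl; exact ⟨hc, fun h' => h'.1 rfl⟩
  rw [h3] at h2
  have h4 : v ∆ G = (v ∆ G.erase c) ∆ {c} := by
    rw [sd_split v (Finset.erase_subset c G), h3]
  rw [h4]
  exact hK.split _ _ ((spl_single hK).1 h2.2)

theorem mrg_loop (hK : K.IsCore) {v G : Finset X} (h : K.Mrg v G) :
    ∀ c ∈ G, ¬ K.Loop v c ∧ K.Loop (v ∆ G) c := by
  have h' : K.Spl (v ∆ G) G := by
    unfold Cube.Spl Cube.Mrg at *
    rw [sd_cancel]; omega
  intro c hc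
  have := spl_loop hK h' c hc
  rw [sd_cancel] at this
  exact ⟨this.2, this.1⟩

/-- if `b` is a nonloop at `w` and becomes a loop by merging along `c`, then `b` joins the same two
circles as `c` -/
theorem join_of_loop (hK : K.IsCore) {w : Finset X} {b c : X} (hc : ¬ K.Loop w c)
    (hb : ¬ K.Loop w b) (h : K.Loop (w ∆ {c}) b) :
    (K.same w (K.tail b) (K.tail c) ∧ K.same w (K.head b) (K.head c)) ∨
    (K.same w (K.tail b) (K.head c) ∧ K.same w (K.head b) (K.tail c)) := by
  rcases (hK.merge w c hc _ _).1 h with h1 | ⟨h1, h2⟩ | ⟨h1, h2⟩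
  · exact absurd h1 hb
  · exact Or.inl ⟨h1, symm hK h2⟩
  · exact Or.inr ⟨h1, symm hK h2⟩

/-- pairwise non-interleaved loops are jointly splitting -/
theorem spl_of_pairwise (hK : K.IsCore) {v G : Finset X} (hl : ∀ c ∈ G, K.Loop v c)
    (hp : ∀ c ∈ G, ∀ c' ∈ G, c ≠ c' → K.Loop (v ∆ {c}) c') : K.Spl v G := by
  induction' hn : G.card using Nat.strong_induction_on with n ih generalizing G
  rcases Finset.eq_empty_or_nonempty G with rfl | ⟨b, hb⟩
  · unfold Cube.Spl
    have : v ∆ (∅ : Finset X) = v := symmDiff_bot v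
    rw [this]; simp
  -- S = G.erase b
  set S := G.erase b with hS
  have hbS : b ∉ S := by simp [hS]
  have hGS : G = insert b S := (Finset.insert_erase hb).symm
  have hcard : S.card < n := by rw [← hn]; exact Finset.card_erase_lt_of_mem hb
  have hsub : ∀ T ⊆ G, T.card < n → K.Spl v T := by
    intro T hT hTn
    exact ih T.card hTn (fun c hc => hl c (hT hc)) (fun c hc c' hc' hne => hp c (hT hc) c' (hT hc') hne) rfl
  have hSpl : K.Spl v S := hsub S (Finset.erase_subset _ _) hcard
  have key : K.Loop (v ∆ S) b := by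
    by_contra hnl
    rcases Finset.eq_empty_or_nonempty S with hS0 | ⟨c, hc⟩
    · rw [hS0] at hnl
      have : v ∆ (∅ : Finset X) = v := symmDiff_bot v
      rw [this] at hnl
      exact hnl (hl b hb)
    by_cases h1 : S = {c}
    · rw [h1] at hnl
      exact hnl (hp c (Finset.mem_of_mem_erase hc) b hb (fun h => hbS (h ▸ hc)))
    · -- another element c'
      obtain ⟨c', hc', hne⟩ : ∃ c' ∈ S, c' ≠ c := by
        by_contra hno
        push Not at hno
        exact h1 (Finset.eq_singleton_iff_unique_mem.2 ⟨hc, hno⟩)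
      -- for each d ∈ S, b joins the same circles as d
      have hj : ∀ d ∈ S, (K.same (v ∆ S) (K.tail b) (K.tail d) ∧ K.same (v ∆ S) (K.head b) (K.head d)) ∨
          (K.same (v ∆ S) (K.tail b) (K.head d) ∧ K.same (v ∆ S) (K.head b) (K.tail d)) := by
        intro d hd
        have hdG : d ∈ G := Finset.mem_of_mem_erase hd
        have hdb : d ≠ b := fun h => hbS (h ▸ hd)
        have hlt : (G.erase d).card < n := by rw [← hn]; exact Finset.card_erase_lt_of_mem hdG
        have h2 : K.Spl v (G.erase d) := hsub _ (Finset.erase_subset _ _) hlt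
        have h3 : G.erase d = insert b (S.erase d) := by
          ext x; simp only [hS, Finset.mem_erase, Finset.mem_insert]
          constructor
          · rintro ⟨h1, h2⟩
            by_cases hx : x = b
            · exact Or.inl hx
            · exact Or.inr ⟨h1, hx, h2⟩
          · rintro (rfl | ⟨h1, h2, h3⟩)
            · exact ⟨fun h => hdb h.symm, hb⟩
            · exact ⟨h1, h3⟩
        have h4 : K.Loop (v ∆ S.erase d) b := by
          rw [h3] at h2
          have h5 := (spl_iff hK (H := S.erase d) (G := insert b (S.erase d))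
            (Finset.subset_insert _ _)).1 h2
          have hb' : b ∉ S.erase d := fun h => hbS (Finset.mem_of_mem_erase h)
          have h6 : insert b (S.erase d) \ S.erase d = {b} := by
            ext x; simp only [Finset.mem_sdiff, Finset.mem_insert, Finset.mem_singleton]
            constructor
            · rintro ⟨h1 | h1, h2⟩
              · exact h1
              · exact absurd h1 h2
            · rintro rfl; exact ⟨Or.inl rfl, hb'⟩
          rw [h6] at h5
          exact (spl_single hK).1 h5.2
        have h7 : v ∆ S.erase d = (v ∆ S) ∆ {d} := by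
          have : v ∆ S = (v ∆ S.erase d) ∆ {d} := by
            conv_lhs => rw [← Finset.insert_erase hd]
            rw [sd_insert' _ _ (Finset.notMem_erase d S)]
          rw [this, sd_cancel]
        rw [h7] at h4
        exact join_of_loop hK (spl_loop hK hSpl d hd).2 hnl h4
      -- c and c' join the same circles
      have hcc : K.Loop ((v ∆ S) ∆ {c}) c' := by
        have hcn := (spl_loop hK hSpl c hc).2
        have hm := hK.merge (v ∆ S) c hcn (K.tail c') (K.head c')
        refine hm.2 ?_
        rcases hj c hc with ⟨h1, h2⟩ | ⟨h1, h2⟩ <;> rcases hj c' hc' with ⟨h3, h4⟩ | ⟨h3, h4⟩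
        · exact Or.inr (Or.inl ⟨trans hK (symm hK h3) h1, trans hK (symm hK h2) h4⟩)
        · exact Or.inr (Or.inr ⟨trans hK (symm hK h4) h2, trans hK (symm hK h1) h3⟩)
        · exact Or.inr (Or.inr ⟨trans hK (symm hK h3) h1, trans hK (symm hK h2) h4⟩)
        · exact Or.inr (Or.inl ⟨trans hK (symm hK h4) h2, trans hK (symm hK h1) h3⟩)
      have h8 : K.Spl v (S.erase c) :=
        hsub _ ((Finset.erase_subset _ _).trans (Finset.erase_subset _ _))
          (lt_of_le_of_lt (Finset.card_le_card (Finset.erase_subset _ _)) hcard)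
      have h9 := (spl_loop hK h8 c' (Finset.mem_erase.2 ⟨hne, hc'⟩)).2
      apply h9
      have h7 : v ∆ S.erase c = (v ∆ S) ∆ {c} := by
        have : v ∆ S = (v ∆ S.erase c) ∆ {c} := by
          conv_lhs => rw [← Finset.insert_erase hc]
          rw [sd_insert' _ _ (Finset.notMem_erase c S)]
        rw [this, sd_cancel]
      rw [h7]; exact hcc
  rw [hGS, Cube.Spl, sd_insert' _ _ hbS, num_flip_loop hK key, hSpl,
    Finset.card_insert_of_notMem hbS]
  omega

end B1
end Pool.Agent.helper20.Sz
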