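import Mathlib

/-!
# Szabó's spectral sequence: definitions (MP_e07446_gt)

* `LinkDiagram`      : planar link diagrams on the sphere (4-valent maps of genus 0 with
                       over/under information, plus crossingless components);
* `Cube`             : the cube of resolutions: which points of the diagram lie on the same circle
                       of a resolution, and for each crossing the tail and head point of the
                       surgery arc (and of the dual arc);
* `Cube.Coef`        : Szabó's rule for faces (types A, B, C, D, E);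
* `Based`, `FC`      : based filtered complexes, pages of the spectral sequence.
-/

open scoped symmDiff

namespace Pool.Agent.helper20.Sz

/-! ## Cubes of resolutions -/

/-- A cube of resolutions.  `X` is the set of crossings, a resolution is a finite set `v` of
crossings (those which are 1-resolved), `E` is the set of points of the diagram.
`same v x y`: the points `x`, `y` lie on the same circle of the resolution `v`.
`tail c`, `head c` : points of the diagram next to the crossing `c` such that, in a resolution
`v ∌ c`, the surgery arc at `c` leads from the circle of `tail c` to the circle of `head c`, and in a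
resolution `v ∋ c` the dual arc leads from the circle of `tail c` to the circle of `head c`. -/
structure Cube (X E : Type) where
  same : Finset X → E → E → Prop
  tail : X → E
  head : X → E

namespace Cube

variable {X E : Type} [DecidableEq X] (K : Cube X E)

/-- `G` is a nonempty set of arcs of the resolution `v` leading all from one circle `a` to another
circle `b` (parallel arcs with the same direction). -/
def Par (v G : Finset X) : Prop :=
  G.Nonempty ∧ ∃ a b : E, ¬ K.same v a b ∧
    ∀ g ∈ G, K.same v (K.tail g) a ∧ K.same v (K.head g) b

/-- The arcs `e`, `f` of `v` have all four ends on one circle, and they are interleaved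
(after surgery along `f` the arc `e` joins two different circles), with chirality `s0`
(after surgery along `f` the tails lie on the same circle iff `s0` is true). -/
def Crs (s0 : Bool) (v : Finset X) (e f : X) : Prop :=
  K.same v (K.tail e) (K.head e) ∧ K.same v (K.tail f) (K.head f) ∧
    ¬ K.same (v ∆ {f}) (K.tail e) (K.head e) ∧
    (K.same (v ∆ {f}) (K.tail e) (K.tail f) ↔ s0 = true)

/-- `G` is the union of two nonempty bunches of arcs of `v`, each arc of the first bunch being
interleaved (with chirality `s0`) with each arc of the second one. -/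
def Bun (s0 : Bool) (v G : Finset X) : Prop :=
  ∃ A B : Finset X, A ∪ B = G ∧ Disjoint A B ∧ A.Nonempty ∧ B.Nonempty ∧
    ∀ e ∈ A, ∀ f ∈ B, K.Crs s0 v e f

/-- Parallel arcs or two crossed bunches. -/
def AC (s0 : Bool) (v G : Finset X) : Prop := K.Par v G ∨ K.Bun s0 v G

/-- A generator (monomial) of the Khovanov chain group: a resolution `v` and a label of every circle,
given as a function on the points which is constant on the circles.  `true` is the label `1`,
`false` is the label `x`. -/
structure Gen where
  v : Finset X
  s : E → Bool
  inv : ∀ x y, K.same v x y → s x = s y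

/-- Star shaped faces (type `E`): all heads are on the central circle of `a.v` and on the central
circle of `b.v` (both contain the point `z`).  The other end of an arc is either on an in-leaf
(labelled `x`, merged with the centre) or on an out-leaf (labelled `1`, split off the centre);
different arcs have different leaves.  The centre has label `1` before and `x` after. -/
def Star (tl hd : X → E) (a b : K.Gen) : Prop :=
  ∃ z : E, a.s z = true ∧
    (∀ x, a.s x ≠ b.s x ↔ (K.same a.v x z ∧ K.same b.v x z)) ∧
    (∀ g ∈ b.v \ a.v, K.same a.v (hd g) z ∧ K.same b.v (hd g) z ∧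
      ((¬ K.same a.v (tl g) z ∧ K.same b.v (tl g) z ∧ a.s (tl g) = false) ∨
        (K.same a.v (tl g) z ∧ ¬ K.same b.v (tl g) z ∧ b.s (tl g) = true))) ∧
    (∀ g ∈ b.v \ a.v, ∀ g' ∈ b.v \ a.v, g ≠ g' →
      (¬ K.same a.v (tl g) z → ¬ K.same a.v (tl g') z → ¬ K.same a.v (tl g) (tl g')) ∧
      (¬ K.same b.v (tl g) z → ¬ K.same b.v (tl g') z → ¬ K.same b.v (tl g) (tl g')))

/-- The coefficient of `b` in Szabó's differential of `a` is `1`. -/
def Coef (s0 : Bool) (a b : K.Gen) : Prop :=
  a.v ⊂ b.v ∧ (
   -- types A and C : all active circles are labelled `1` before and after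
   ((∀ x, a.s x = b.s x) ∧ K.AC s0 a.v (b.v \ a.v) ∧
      ∀ g ∈ b.v \ a.v, a.s (K.tail g) = true ∧ a.s (K.head g) = true) ∨
   -- types B and D (dual to A and C) : all active circles are labelled `x` before and after
   ((∀ x, a.s x = b.s x) ∧ K.AC s0 b.v (b.v \ a.v) ∧
      ∀ g ∈ b.v \ a.v, a.s (K.tail g) = false ∧ a.s (K.head g) = false) ∨
   -- type E
   K.Star K.tail K.head a b ∨ K.Star K.head K.tail a b)

/-- number of circles of the resolution `v` -/
noncomputable def num (v : Finset X) : ℕ := Nat.card (Quot (K.same v))

/-- number of circles of `a` which are labelled `1` -/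
noncomputable def ones (a : K.Gen) : ℕ :=
  Nat.card {z : Quot (K.same a.v) // ∃ x, Quot.mk _ x = z ∧ a.s x = true}

/-- the grading `gr` of a monomial: `gr 1 = 1`, `gr x = -1` -/
noncomputable def gr (a : K.Gen) : ℤ := 2 * (K.ones a : ℤ) - (K.num a.v : ℤ)

end Cube

/-! ## Filtered complexes and pages -/

/-- A vector space over `F₂` with an endomorphism `d` and submodules `G a b`
(`G a b` : elements of filtration degree at least `a` and internal degree `q - 2h = b`). -/
structure FC where
  M : Type
  [grp : AddCommGroup M]
  [mod : Module (ZMod 2) M]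
  d : M →ₗ[ZMod 2] M
  G : ℤ → ℤ → Submodule (ZMod 2) M

attribute [instance] FC.grp FC.mod

namespace FC

variable (C : FC)

/-- `Z^k` : elements whose differential has filtration degree at least `a + k`. -/
def Z (k : ℕ) (a b : ℤ) : Submodule (ZMod 2) C.M :=
  C.G a b ⊓ (C.G (a + k) (b - 2)).comap C.d

/-- The denominator `Z^{k-1}_{a+1} + d Z^{k-1}_{a-k+1}` of the page. -/
abbrev Bd (k : ℕ) (a b : ℤ) : Submodule (ZMod 2) C.M :=
  C.Z (k - 1) (a + 1) b ⊔ (C.Z (k - 1) (a - k + 1) (b + 2)).map C.d

/-- The page `E^k = Z^k_a / (Z^{k-1}_{a+1} + d Z^{k-1}_{a-k+1})` in filtration degree `a` and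
internal degree `b`. -/
abbrev Page (k : ℕ) (a b : ℤ) : Type :=
  (C.Z k a b) ⧸ ((C.Bd k a b).comap (C.Z k a b).subtype)

end FC

/-- A finite set of generators with homological degree `h`, quantum degree `q`, and the
matrix `coef` of a differential. -/
structure Based where
  Γ : Type
  [fin : Finite Γ]
  h : Γ → ℤ
  q : Γ → ℤ
  coef : Γ → Γ → Prop

namespace Based

variable (B : Based)

open Classical in
/-- `(d φ)(y) = ∑ₓ coef(x,y) φ(x)`, the sum over all generators `x` with `coef x y` -/
noncomputable def dFun (φ : B.Γ → ZMod 2) (y : B.Γ) : ZMod 2 :=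
  haveI := B.fin
  haveI := Fintype.ofFinite B.Γ
  ∑ x, if B.coef x y then φ x else 0

theorem dFun_add (φ ψ : B.Γ → ZMod 2) : B.dFun (φ + ψ) = B.dFun φ + B.dFun ψ := by
  funext y
  simp only [dFun, Pi.add_apply, ← Finset.sum_add_distrib]
  exact Finset.sum_congr rfl (fun x _ => by split_ifs <;> simp)

theorem dFun_smul (r : ZMod 2) (φ : B.Γ → ZMod 2) : B.dFun (r • φ) = r • B.dFun φ := by
  funext y
  simp only [dFun, Pi.smul_apply, smul_eq_mul, Finset.mul_sum]
  exact Finset.sum_congr rfl (fun x _ => by split_ifs <;> simp)

/-- the linear map with matrix `coef` : `(d φ)(y) = ∑ₓ coef(x,y) φ(x)`. -/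
noncomputable def d : (B.Γ → ZMod 2) →ₗ[ZMod 2] (B.Γ → ZMod 2) where
  toFun := B.dFun
  map_add' := B.dFun_add
  map_smul' := B.dFun_smul

/-- chains of filtration degree at least `a` and internal degree `q - 2h = b` -/
def G (a b : ℤ) : Submodule (ZMod 2) (B.Γ → ZMod 2) where
  carrier := {φ | ∀ g, φ g ≠ 0 → a ≤ B.h g ∧ B.q g - 2 * B.h g = b}
  zero_mem' := by intro g hg; exact absurd rfl hg
  add_mem' := by
    intro φ ψ hφ hψ g hg
    by_cases h : φ g = 0
    · exact hψ g (by intro h'; apply hg; simp [h, h'])
    · exact hφ g h
  smul_mem' := by
    intro r φ hφ g hg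
    exact hφ g (by intro h'; apply hg; simp [h'])

/-- the filtered complex of a based complex -/
noncomputable def fc : FC where
  M := B.Γ → ZMod 2
  d := B.d
  G := B.G

/-- The page `E^k` in homological degree `h` and quantum degree `q`. -/
noncomputable abbrev PageHQ (k : ℕ) (h q : ℤ) : Type := B.fc.Page k h (q - 2 * h)

end Based

/-! ## Link diagrams -/

/-- A link diagram on the sphere with `n` crossings and `m` crossingless components.  A crossing `i`
has four ports `(i,0), (i,1), (i,2), (i,3)` in counterclockwise order; `(i,0)`, `(i,2)` are the two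
ends of the under-strand and `(i,1)`, `(i,3)` the ends of the over-strand.  The edges of the
diagram connect the ports in pairs, `mate x` is the other end of the edge starting at the port `x`.
`planar` is Euler's formula `V - E + F = 2 (number of components)` for the underlying 4-valent graph:
`V = n`, `E = 2 n`, and the faces are the orbits of: go along the edge and turn. -/
structure LinkDiagram where
  n : ℕ
  m : ℕ
  mate : Fin n × Fin 4 → Fin n × Fin 4
  mate_mate : ∀ x, mate (mate x) = x
  mate_ne : ∀ x, mate x ≠ x
  planar : Nat.card (Quot fun x y : Fin n × Fin 4 => y = ((mate x).1, (mate x).2 + 1)) =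
    n + 2 * Nat.card (Quot fun i j : Fin n => ∃ a b : Fin 4, mate (i, a) = (j, b))

namespace LinkDiagram

variable (D : LinkDiagram)

/-- Points of the diagram away from the crossings: one for each port and one for each
crossingless component. -/
abbrev Point : Type := (Fin D.n × Fin 4) ⊕ Fin D.m

/-- Neighbouring points of the resolution `v`: the two ends of an edge, and the ports connected by
the smoothing.  The 0-smoothing of a crossing connects `(i,0)` with `(i,1)` and `(i,2)` with `(i,3)`, the
1-smoothing (`i ∈ v`) connects `(i,1)` with `(i,2)` and `(i,3)` with `(i,0)`. -/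
inductive Step (v : Finset (Fin D.n)) : D.Point → D.Point → Prop
  | edge (x : Fin D.n × Fin 4) : Step v (Sum.inl x) (Sum.inl (D.mate x))
  | zero01 (i : Fin D.n) (h : i ∉ v) : Step v (Sum.inl (i, 0)) (Sum.inl (i, 1))
  | zero23 (i : Fin D.n) (h : i ∉ v) : Step v (Sum.inl (i, 2)) (Sum.inl (i, 3))
  | one12 (i : Fin D.n) (h : i ∈ v) : Step v (Sum.inl (i, 1)) (Sum.inl (i, 2))
  | one30 (i : Fin D.n) (h : i ∈ v) : Step v (Sum.inl (i, 3)) (Sum.inl (i, 0))

/-- The cube of resolutions of a diagram.  `t` is the choice of an orientation of the surgery
arc at each crossing; `rot` says in which direction an arc is rotated by 90 degrees to obtain the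
dual arc.  In the 0-smoothing the arc joins the strand `{(i,0),(i,1)}` with the
strand `{(i,2),(i,3)}` (with `t i = true` the first one is the tail); in the 1-smoothing the dual
arc joins `{(i,3),(i,0)}` with `{(i,1),(i,2)}`. -/
def cube (t : Fin D.n → Bool) (rot : Bool) : Cube (Fin D.n) D.Point where
  same := fun v x y => (Quot.mk (D.Step v) x : Quot (D.Step v)) = Quot.mk (D.Step v) y
  tail := fun i => Sum.inl (i, (if t i then 0 else 2) + (if rot then 1 else 0))
  head := fun i => Sum.inl (i, (if t i then 2 else 0) + (if rot then 1 else 0))

/-- An orientation of the link: `out x` says that the edge at the port `x` is oriented away from the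
crossing. -/
structure Orient where
  out : Fin D.n × Fin 4 → Bool
  out_mate : ∀ x, out (D.mate x) = !out x
  out_opp : ∀ i a, out (i, a + 2) = !out (i, a)

/-- number of positive crossings: the under-strand runs from port `0` to port `2` and the over-strand
from port `3` to port `1`, or both in the opposite direction. -/
def Orient.npos {D : LinkDiagram} (o : D.Orient) : ℕ :=
  (Finset.univ.filter fun i : Fin D.n => o.out (i, 1) = o.out (i, 2)).card

/-- number of negative crossings -/
def Orient.nneg {D : LinkDiagram} (o : D.Orient) : ℕ :=
  (Finset.univ.filter fun i : Fin D.n => o.out (i, 1) ≠ o.out (i, 2)).card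

end LinkDiagram

instance {X E : Type} [DecidableEq X] [Finite X] [Finite E] (K : Cube X E) : Finite K.Gen := by
  haveI := Fintype.ofFinite X
  refine Finite.of_injective (β := Finset X × (E → Bool)) (fun g => (g.v, g.s)) ?_
  rintro ⟨v, s, h⟩ ⟨v', s', h'⟩ e
  simp only [Prod.mk.injEq] at e
  obtain ⟨rfl, rfl⟩ := e
  rfl

/-- The chain complex of a cube, with `h = |v| - nm` and `q = gr + |v| + np - 2 nm + shift`. -/
noncomputable def Cube.full {X E : Type} [DecidableEq X] [Finite X] [Finite E] (K : Cube X E)
    (s0 : Bool) (np nm : ℤ) : Based where
  Γ := K.Gen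
  h := fun g => (g.v.card : ℤ) - nm
  q := fun g => K.gr g + g.v.card + np - 2 * nm
  coef := K.Coef s0

/-- The reduced complex: monomials in which the circle through `P` is labelled `x`, with the quantum
grading raised by 1. -/
noncomputable def Cube.reduced {X E : Type} [DecidableEq X] [Finite X] [Finite E] (K : Cube X E)
    (s0 : Bool) (np nm : ℤ) (P : E) : Based where
  Γ := {g : K.Gen // g.s P = false}
  h := fun g => (g.1.v.card : ℤ) - nm
  q := fun g => K.gr g.1 + g.1.v.card + np - 2 * nm + 1
  coef := fun a b => K.Coef s0 a.1 b.1

/-- Szabó's filtered complex of an oriented link diagram with decoration `t`. -/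
noncomputable def LinkDiagram.szabo (D : LinkDiagram) (o : D.Orient) (t : Fin D.n → Bool)
    (rot s0 : Bool) : Based :=
  (D.cube t rot).full s0 o.npos o.nneg

/-- Szabó's reduced filtered complex with basepoint `P`. -/
noncomputable def LinkDiagram.szaboRed (D : LinkDiagram) (o : D.Orient) (t : Fin D.n → Bool)
    (rot s0 : Bool) (P : D.Point) : Based :=
  (D.cube t rot).reduced s0 o.npos o.nneg P

end Pool.Agent.helper20.Sz
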