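import Pool.Agent.helper20.Sz.Defs

/-!
# Abstract planar surgery systems, the bar complex and the map `Ξ` (definitions only)
-/

open scoped symmDiff

namespace Pool.Agent.helper20.Sz

/-- all crossings of `G` are unflipped, or all are flipped -/
def Hom {X : Type} (v G : Finset X) : Prop := ∀ c ∈ G, ∀ c' ∈ G, (c ∈ v ↔ c' ∈ v)

namespace Cube

variable {X E : Type} [DecidableEq X] (K : Cube X E)

/-- surgeries split and merge circles -/
structure IsCore : Prop where
  eqv : ∀ v, Equivalence (K.same v)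
  /-- surgery at an arc with both ends on one circle splits this circle -/
  split : ∀ v c, K.same v (K.tail c) (K.head c) → ¬ K.same (v ∆ {c}) (K.tail c) (K.head c)
  /-- surgery at an arc connecting two circles merges them -/
  merge : ∀ v c, ¬ K.same v (K.tail c) (K.head c) → ∀ x y, K.same (v ∆ {c}) x y ↔
    K.same v x y ∨ (K.same v x (K.tail c) ∧ K.same v (K.head c) y) ∨
      (K.same v x (K.head c) ∧ K.same v (K.tail c) y)

open Classical in
/-- telescoping around the circle of `z` in `v` -/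
def Tele (eta : X → Bool) : Prop :=
  ∀ (v G : Finset X) (f : E → ℤ), (∀ x y, K.same (v ∆ G) x y → f x = f y) → ∀ z : E,
    ∑ c ∈ G, (if eta c then (1 : ℤ) else -1) * (f (K.head c) - f (K.tail c)) *
      ((if K.same v (K.tail c) z then 1 else 0) - (if K.same v (K.head c) z then 1 else 0)) = 0

/-- arcs connecting the same two circles are on the same side -/
def Side2 (eta : X → Bool) : Prop :=
  ∀ v c c', (c ∈ v ↔ c' ∈ v) → ¬ K.same v (K.tail c) (K.head c) →
    ((K.same v (K.tail c) (K.tail c') ∧ K.same v (K.head c) (K.head c')) ∨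
      (K.same v (K.tail c) (K.head c') ∧ K.same v (K.head c) (K.tail c'))) → eta c = eta c'

/-- interleaved arcs are on different sides -/
def Side1 (eta : X → Bool) : Prop :=
  ∀ v c c', c ≠ c' → (c ∈ v ↔ c' ∈ v) → K.same v (K.tail c) (K.head c) →
    K.same v (K.tail c') (K.head c') → ¬ K.same (v ∆ {c}) (K.tail c') (K.head c') →
    eta c ≠ eta c'

/-- The properties of the cube of resolutions of a planar diagram which are used. -/
structure IsSys (eta : X → Bool) : Prop extends K.IsCore where
  tele : K.Tele eta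
  side2 : K.Side2 eta
  side1 : K.Side1 eta

/-- the arc `c` has both ends on one circle of `v` -/
def Loop (v : Finset X) (c : X) : Prop := K.same v (K.tail c) (K.head c)

/-- surgery along `G` only splits circles -/
def Spl (v G : Finset X) : Prop := K.num (v ∆ G) = K.num v + G.card

/-- surgery along `G` only merges circles (the arcs of `G` form a forest) -/
def Mrg (v G : Finset X) : Prop := K.num (v ∆ G) + G.card = K.num v

/-! ### Statements of the main identities -/

/-- number of circles after surgery along a set of type A or C -/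
def NumP (s0 : Bool) : Prop :=
  ∀ v G, Hom v G → K.AC s0 v G → K.num (v ∆ G) + 2 = K.num v + G.card

/-- the chirality of an interleaved pair is symmetric -/
def CrsP (s0 : Bool) : Prop := ∀ v e f, (e ∈ v ↔ f ∈ v) → K.Crs s0 v e f → K.Crs s0 v f e

open Classical in
/-- The main counting identity.  `f` is constant on the circles of `v ∆ G`; an arc `c` is good if
`f (head c) < f (tail c)`. -/
def GIP (s0 : Bool) : Prop :=
  ∀ (v G : Finset X) (f : E → ℕ), Hom v G → (∀ x y, K.same (v ∆ G) x y → f x = f y) →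
    (∑ A ∈ G.powerset, if K.AC s0 v A ∧ (∀ c ∈ G \ A, f (K.head c) < f (K.tail c)) ∧
        K.Spl (v ∆ A) (G \ A) then (1 : ZMod 2) else 0) =
    ∑ A ∈ G.powerset, if K.AC s0 (v ∆ (G \ A)) A ∧ (∀ c ∈ G \ A, f (K.head c) < f (K.tail c)) ∧
        (∀ c ∈ A, f (K.tail c) = f (K.head c)) ∧ K.Spl v (G \ A) then (1 : ZMod 2) else 0

open Classical in
/-- the square of the part of types A and C vanishes -/
def YYP (s0 : Bool) : Prop :=
  ∀ v G : Finset X, Hom v G →
    (∑ A ∈ G.powerset, if K.AC s0 v A ∧ K.AC s0 (v ∆ A) (G \ A) then (1 : ZMod 2) else 0) = 0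

/-! ### Words: ordered set partitions, given by the chain of unions of their initial blocks -/

/-- no member of `𝒟` separates the two ends of `c` -/
def Nsep (𝒟 : Finset (Finset E)) (c : X) : Prop := ∀ D ∈ 𝒟, (K.tail c ∈ D ↔ K.head c ∈ D)

/-- `𝒟` is a chain of proper nonempty sets which are unions of circles of `v` -/
structure Valid [Fintype E] (v : Finset X) (𝒟 : Finset (Finset E)) : Prop where
  ne : ∀ D ∈ 𝒟, D.Nonempty
  top : ∀ D ∈ 𝒟, D ≠ Finset.univ
  sat : ∀ D ∈ 𝒟, ∀ x y, K.same v x y → (x ∈ D ↔ y ∈ D)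
  chain : ∀ D ∈ 𝒟, ∀ D' ∈ 𝒟, D ⊆ D' ∨ D' ⊆ D

end Cube

section rot

variable {E : Type} [Fintype E] [DecidableEq E]

/-- rebasing a set at `D` -/
def rr (D D' : Finset E) : Finset E := if D ⊆ D' then D' \ D else D' ∪ Dᶜ

/-- rotation of the word `𝒟` which moves the blocks contained in `D` to the end -/
def rho (D : Finset E) (𝒟 : Finset (Finset E)) : Finset (Finset E) :=
  insert Dᶜ ((𝒟.erase D).image (rr D))

/-- the word `𝒟` is normal: `P` is in the first block -/
def Nrm (P : E) (𝒟 : Finset (Finset E)) : Prop := ∀ D ∈ 𝒟, P ∈ D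

/-- the first block of a word -/
def B0 (𝒟 : Finset (Finset E)) : Finset E := Finset.univ.filter fun x => ∀ D ∈ 𝒟, x ∈ D

end rot

/-- the space of all functions on words -/
abbrev W (X E : Type) : Type := Finset X → Finset (Finset E) → ZMod 2

namespace Cube

variable {X E : Type} [DecidableEq X] [Fintype E] [DecidableEq E] (K : Cube X E)

open Classical in
/-- value of the differential of the bar complex -/
noncomputable def delF (s0 : Bool) (ψ : W X E) (u : Finset X) (𝒟 : Finset (Finset E)) : ZMod 2 :=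
  ∑ w ∈ u.powerset, if (∀ c ∈ u \ w, K.Nsep 𝒟 c) then
    ((if K.AC s0 u (u \ w) then ψ w 𝒟 else 0) +
     (if K.num u + (u \ w).card = K.num w then
        ∑ D ∈ Finset.univ.filter (fun D : Finset E =>
          D ∉ 𝒟 ∧ ∀ c ∈ u \ w, K.tail c ∈ D ∧ K.head c ∉ D), ψ w (insert D 𝒟)
      else 0)) else 0

/-- the differential of the bar complex -/
noncomputable def del (s0 : Bool) : W X E →ₗ[ZMod 2] W X E where
  toFun := fun ψ u 𝒟 => K.delF s0 ψ u 𝒟
  map_add' := by
    intro φ ψ
    funext u 𝒟
    simp only [delF, Pi.add_apply, ← Finset.sum_add_distrib]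
    refine Finset.sum_congr rfl (fun w _ => ?_)
    split_ifs <;> simp only [Finset.sum_add_distrib, add_zero] <;> ring
  map_smul' := by
    intro r ψ
    funext u 𝒟
    simp only [delF, Pi.smul_apply, smul_eq_mul, RingHom.id_apply, Finset.mul_sum]
    refine Finset.sum_congr rfl (fun w _ => ?_)
    split_ifs <;> simp only [mul_add, mul_zero, Finset.mul_sum]

/-- supported on valid words -/
def Supp (ψ : W X E) : Prop := ∀ v 𝒟, ψ v 𝒟 ≠ 0 → K.Valid v 𝒟

/-- invariant under rotation of words -/
def Rot (ψ : W X E) : Prop := ∀ v 𝒟 D, K.Valid v 𝒟 → D ∈ 𝒟 → ψ v (rho D 𝒟) = ψ v 𝒟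

/-- The submodules of the bar complex: valid words, rotation invariant, filtration degree at
least `a`, internal degree `b`. -/
noncomputable def barG (np nm a b : ℤ) : Submodule (ZMod 2) (W X E) where
  carrier := {ψ | (∀ v 𝒟, ψ v 𝒟 ≠ 0 → K.Valid v 𝒟 ∧ a ≤ (v.card : ℤ) - nm ∧
      2 * (𝒟.card : ℤ) - K.num v - v.card + np + 1 = b) ∧ K.Rot ψ}
  zero_mem' := ⟨fun v 𝒟 h => absurd rfl h, fun v 𝒟 D _ _ => rfl⟩
  add_mem' := by
    rintro φ ψ ⟨h1, h2⟩ ⟨h3, h4⟩
    refine ⟨fun v 𝒟 h => ?_, fun v 𝒟 D hv hD => ?_⟩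
    · by_cases h' : φ v 𝒟 = 0
      · exact h3 v 𝒟 (by intro h''; apply h; simp [h', h''])
      · exact h1 v 𝒟 h'
    · simp only [Pi.add_apply, h2 v 𝒟 D hv hD, h4 v 𝒟 D hv hD]
  smul_mem' := by
    rintro r ψ ⟨h1, h2⟩
    refine ⟨fun v 𝒟 h => ?_, fun v 𝒟 D hv hD => ?_⟩
    · exact h1 v 𝒟 (by intro h'; apply h; simp [h'])
    · simp only [Pi.smul_apply, h2 v 𝒟 D hv hD]

/-- the bar complex -/
noncomputable def bar (s0 : Bool) (np nm : ℤ) : FC where
  M := W X E
  d := K.del s0
  G := K.barG np nm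

/-- The word `𝒟` at the resolution `u` occurs in the image of the generator `(v, s)` (normal words):
the first block is the set `{s = x}`, the other blocks are single circles, the circles labelled `1` are
split along `u \ v`, and heads come before tails. -/
structure Xi0 (P : E) (v : Finset X) (s : E → Bool) (u : Finset X) (𝒟 : Finset (Finset E)) :
    Prop where
  sub : v ⊆ u
  valid : K.Valid u 𝒟
  nrm : Nrm P 𝒟
  first : ∀ x, s x = false ↔ ∀ D ∈ 𝒟, x ∈ D
  single : ∀ x y, s x = true → (∀ D ∈ 𝒟, (x ∈ D ↔ y ∈ D)) → K.same u x y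
  spl : K.Spl v (u \ v)
  lab : ∀ c ∈ u \ v, s (K.tail c) = true ∧ s (K.head c) = true
  ord : ∀ c ∈ u \ v, ∃ D ∈ 𝒟, K.head c ∈ D ∧ K.tail c ∉ D

/-- general words -/
def Xi (P : E) (v : Finset X) (s : E → Bool) (u : Finset X) (𝒟 : Finset (Finset E)) : Prop :=
  K.Valid u 𝒟 ∧ (K.Xi0 P v s u 𝒟 ∨ ∃ D ∈ 𝒟, K.Xi0 P v s u (rho D 𝒟))

open Classical in
/-- the image of a generator -/
noncomputable def XiV (P : E) (v : Finset X) (s : E → Bool) : W X E :=
  fun u 𝒟 => if K.Xi P v s u 𝒟 then 1 else 0

end Cube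

/-! ### Flags in the lattice of saturated sets -/

/-- `𝒟` is a chain of `r`-saturated sets strictly between `A` and `B` -/
structure Flg {E : Type} (r : E → E → Prop) (A B : Finset E) (𝒟 : Finset (Finset E)) : Prop where
  low : ∀ D ∈ 𝒟, A ⊂ D
  upp : ∀ D ∈ 𝒟, D ⊂ B
  sat : ∀ D ∈ 𝒟, ∀ x y, r x y → (x ∈ D ↔ y ∈ D)
  chain : ∀ D ∈ 𝒟, ∀ D' ∈ 𝒟, D ⊆ D' ∨ D' ⊆ D

/-- the flag `𝒟` is full: its blocks are single classes -/
def FullFlg {E : Type} (r : E → E → Prop) (A B : Finset E) (𝒟 : Finset (Finset E)) : Prop :=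
  Flg r A B 𝒟 ∧ ∀ x ∈ B, x ∉ A → ∀ y ∈ B, y ∉ A → (∀ D ∈ 𝒟, (x ∈ D ↔ y ∈ D)) → r x y

/-! ### Adding a crossingless component -/

/-- the cube with one more crossingless circle, on which the new point `none` lies -/
def Cube.addPoint {X E : Type} (K : Cube X E) : Cube X (Option E) where
  same := fun v x y => match x, y with
    | some x, some y => K.same v x y
    | none, none => True
    | _, _ => False
  tail := fun c => some (K.tail c)
  head := fun c => some (K.head c)

/-! ### Checkerboard orientation of a link diagram -/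

/-- `o x = true`: the edge at the port `x` leads away from the crossing, for the orientation of all
edges as boundary of the black regions of a checkerboard colouring. -/
def LinkDiagram.Checker (D : LinkDiagram) (o : Fin D.n × Fin 4 → Bool) : Prop :=
  (∀ i a, o (i, a + 1) = !o (i, a)) ∧ ∀ x, o (D.mate x) = !o x

/-- the side function of a checkerboard orientation -/
def LinkDiagram.eta (D : LinkDiagram) (o : Fin D.n × Fin 4 → Bool) (rot : Bool) (c : Fin D.n) :
    Bool := xor rot (!o (c, 0))

end Pool.Agent.helper20.Sz
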