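import Pool.Agent.helper20.Sz.B1
import Pool.Agent.helper91.Sz.B2
import Pool.Agent.helper62.Sz.G1
import Pool.Agent.helper98.Sz.GIa
import Pool.Agent.helper96.Sz.GIb
import Pool.Agent.helper98.Sz.GI
import Pool.Agent.helper44.Sz.YYa
import Pool.Agent.helper39.Sz.YYb
import Pool.Agent.helper40.Sz.DD
import Pool.Agent.helper70.Sz.R1
import Pool.Agent.helper59.Sz.R2
import Pool.Agent.helper26.Sz.C1s
import Pool.Agent.helper41.Sz.C1d
import Pool.Agent.helper9.Sz.C2
import Pool.Agent.helper69.Sz.C3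
import Pool.Agent.helper95.Sz.C4
import Pool.Agent.helper25.Sz.H1
import Pool.Agent.helper44.Sz.L1
import Pool.Agent.helper3.Sz.T1
import Pool.Agent.helper37.Sz.F1
import Pool.Agent.helper37.Sz.A2
import Pool.Agent.helper70.Sz.A1
import Pool.Agent.helper60.Sz.P1
import Pool.Agent.helper16.Sz.P2
import Pool.Agent.helper7.Sz.P3
import Pool.Agent.helper7.Sz.P4
import Pool.Agent.helper12.Sz.P5

/-! # Assembly: the reduced complex and the bar complex have the same pages -/

open scoped symmDiff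

namespace Pool.Agent.helper20.Sz
namespace Main

variable {X E : Type} [DecidableEq X] [Fintype X] [Fintype E] [DecidableEq E] {K : Cube X E}
  {eta : X → Bool}

/-- generators of the reduced complex -/
abbrev RG (K : Cube X E) (P : E) : Type := {g : K.Gen // g.s P = false}

noncomputable instance (K : Cube X E) (P : E) : Fintype (RG K P) := Fintype.ofFinite _

theorem sd_diff {v u : Finset X} (h : v ⊆ u) : v ∆ (u \ v) = u := by
  ext x
  simp only [Finset.mem_symmDiff, Finset.mem_sdiff]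
  constructor
  · rintro (⟨h1, _⟩ | ⟨⟨h1, _⟩, _⟩)
    · exact h h1
    · exact h1
  · intro hx
    by_cases hv : x ∈ v
    · exact Or.inl ⟨hv, fun h' => h'.2 hv⟩
    · exact Or.inr ⟨⟨hx, hv⟩, hv⟩

/-- The map `Ξ`. -/
noncomputable def XiL (K : Cube X E) (P : E) : (RG K P → ZMod 2) →ₗ[ZMod 2] W X E where
  toFun := fun φ => ∑ g, φ g • K.XiV P g.1.v g.1.s
  map_add' := by intro φ ψ; simp only [Pi.add_apply, add_smul, Finset.sum_add_distrib]
  map_smul' := by
    intro r φ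
    simp only [Pi.smul_apply, smul_eq_mul, RingHom.id_apply, Finset.smul_sum, mul_smul]

theorem XiL_apply (P : E) (φ : RG K P → ZMod 2) : XiL K P φ = ∑ g, φ g • K.XiV P g.1.v g.1.s := rfl

open Classical in
theorem XiL_app (P : E) (φ : RG K P → ZMod 2) (u : Finset X) (𝒟 : Finset (Finset E)) :
    XiL K P φ u 𝒟 = ∑ g : RG K P, if K.Xi P g.1.v g.1.s u 𝒟 then φ g else 0 := by
  rw [XiL_apply, Finset.sum_apply, Finset.sum_apply]
  refine Finset.sum_congr rfl (fun g _ => ?_)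
  simp only [Pi.smul_apply, smul_eq_mul, Cube.XiV]
  split_ifs <;> simp

theorem XiL_supp (P : E) (φ : RG K P → ZMod 2) : K.Supp (XiL K P φ) := by
  intro v 𝒟 h
  rw [XiL_app] at h
  obtain ⟨g, _, hg⟩ := Finset.exists_ne_zero_of_sum_ne_zero h
  split_ifs at hg with h1
  · exact h1.1
  · exact absurd rfl hg

theorem XiL_rot (P : E) (φ : RG K P → ZMod 2) : K.Rot (XiL K P φ) := by
  intro v 𝒟 D hv hD
  rw [XiL_apply]
  simp only [Finset.sum_apply, Pi.smul_apply]
  refine Finset.sum_congr rfl (fun g _ => ?_)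
  rw [R2.xi_rot P g.1.v g.1.s v 𝒟 D hv hD]

/-- uniqueness of the generator at its own resolution -/
theorem gen_eq (P : E) (g g0 : RG K P) {𝒟 : Finset (Finset E)}
    (h0 : K.Xi0 P g0.1.v g0.1.s g0.1.v 𝒟) (h : K.Xi P g.1.v g.1.s g0.1.v 𝒟) :
    g.1.v ⊆ g0.1.v ∧ (g.1.v = g0.1.v → g = g0) := by
  have h1 : K.Xi0 P g.1.v g.1.s g0.1.v 𝒟 := (R2.xi_nrm P _ _ h0.valid h0.nrm).1 h
  refine ⟨h1.sub, fun hv => ?_⟩
  obtain ⟨⟨v, s, hs⟩, hP⟩ := g
  obtain ⟨⟨v0, s0, hs0⟩, hP0⟩ := g0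
  simp only at hv h1 h0
  subst hv
  have : s = s0 := by
    funext x
    have e1 := h1.first x
    have e2 := h0.first x
    cases h3 : s x with
    | false =>
      cases h4 : s0 x with
      | false => rfl
      | true =>
        have := e2.2 (e1.1 h3)
        rw [h4] at this; exact absurd this (by decide)
    | true =>
      cases h4 : s0 x with
      | false =>
        have := e1.2 (e2.1 h4)
        rw [h3] at this; exact absurd this (by decide)
      | true => rfl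
  subst this
  rfl

open Classical in
theorem lead (P : E) (φ : RG K P → ZMod 2) (g0 : RG K P)
    (h : ∀ g, g.1.v ⊂ g0.1.v → φ g = 0) {𝒟 : Finset (Finset E)}
    (h0 : K.Xi0 P g0.1.v g0.1.s g0.1.v 𝒟) : XiL K P φ g0.1.v 𝒟 = φ g0 := by
  rw [XiL_app, Finset.sum_eq_single g0]
  · rw [if_pos ((R2.xi_nrm P _ _ h0.valid h0.nrm).2 h0)]
  · intro g _ hg
    split_ifs with h1
    · obtain ⟨h2, h3⟩ := gen_eq P g g0 h0 h1
      by_cases h4 : g.1.v = g0.1.v
      · exact absurd (h3 h4) hg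
      · exact h g (Finset.ssubset_iff_subset_ne.2 ⟨h2, h4⟩)
    · rfl
  · intro h'; exact absurd (Finset.mem_univ _) h'

theorem XiL_inj (hK : K.IsCore) (P : E) (φ : RG K P → ZMod 2) (h : XiL K P φ = 0) : φ = 0 := by
  classical
  by_contra hne
  obtain ⟨g1, hg1⟩ : ∃ g, φ g ≠ 0 := by
    by_contra hno; push Not at hno; exact hne (funext hno)
  obtain ⟨g0, hg0, hmin⟩ := Finset.exists_min_image (Finset.univ.filter fun g => φ g ≠ 0)
    (fun g => g.1.v.card) ⟨g1, by simp [hg1]⟩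
  simp only [Finset.mem_filter, Finset.mem_univ, true_and] at hg0 hmin
  obtain ⟨𝒟, h𝒟⟩ := H1.exists_word hK P g0.1 g0.2
  have := lead P φ g0 (fun g hg => by
    by_contra hφ
    exact absurd (hmin g hφ) (not_le.2 (Finset.card_lt_card hg))) h𝒟
  rw [h] at this
  exact hg0 this.symm

section
variable (hK : K.IsSys eta) (s0 : Bool)

/-- the numerical statements -/
theorem hN (hK : K.IsSys eta) (s0 : Bool) : K.NumP s0 := G1.num_AC hK s0
theorem hC (hK : K.IsSys eta) (s0 : Bool) : K.CrsP s0 := G1.crs_symm hK s0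

theorem hGI (hK : K.IsSys eta) (s0 : Bool) : K.GIP s0 := by
  refine GI.GI hK s0 (hN hK s0) ?_
  intro v G f hG hf hnum B hB
  by_cases h : ∃ c ∈ G, ¬ K.Loop v c
  · exact GIa.GIa hK s0 (hN hK s0) v G f hG hf hnum h B hB
  · push Not at h
    exact GIb.GIb hK s0 (hN hK s0) (hC hK s0) v G f hG hf hnum h B hB

theorem hYY (hK : K.IsSys eta) (s0 : Bool) : K.YYP s0 :=
  YYa.YYa hK s0 (hGI hK s0) (fun v G hG hl => YYb.YYb hK s0 (hN hK s0) (hC hK s0) v G hG hl)

open Classical in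
theorem chain1 (hK : K.IsSys eta) (s0 : Bool) (P : E) (a : RG K P) :
    K.del s0 (K.XiV P a.1.v a.1.s) = ∑ b : RG K P,
      if K.Coef s0 a.1 b.1 then K.XiV P b.1.v b.1.s else 0 := by
  refine C4.chain_map hK s0 P a.1 a.2 ?_
  intro v u s hs hP 𝒟 hv hn
  by_cases hsing : ∀ x y, s x = true → (∀ D ∈ 𝒟, (x ∈ D ↔ y ∈ D)) → K.same u x y
  · have h1 := C1s.inner hK s0 (hGI hK s0) (hC hK s0) P v u s hs hP 𝒟 hv hn hsing
    convert h1
  · have h1 := C1d.inner hK s0 P v u s hs hP 𝒟 hv hn hsing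
    have h2 : (∑ w ∈ u.powerset, if v ⊆ w ∧ K.AC s0 v (w \ v) ∧
        (∀ c ∈ w \ v, s (K.tail c) = true ∧ s (K.head c) = true) ∧
        K.Xi0 P w s u 𝒟 then (1 : ZMod 2) else 0) = 0 := by
      refine Finset.sum_eq_zero (fun w _ => ?_)
      rw [if_neg]
      rintro ⟨_, _, _, h⟩
      exact hsing h.single
    rw [h2]
    convert h1

/-- the reduced based complex -/
noncomputable abbrev red (K : Cube X E) (s0 : Bool) (np nm : ℤ) (P : E) : Based :=
  K.reduced s0 np nm P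

open Classical in
theorem red_d_apply (np nm : ℤ) (P : E) (φ : RG K P → ZMod 2) (y : RG K P) :
    (red K s0 np nm P).d φ y = ∑ x : RG K P, if K.Coef s0 x.1 y.1 then φ x else 0 := by
  unfold Based.d
  simp only [LinearMap.coe_mk, AddHom.coe_mk]
  rfl

theorem comm (hK : K.IsSys eta) (s0 : Bool) (np nm : ℤ) (P : E) (φ : RG K P → ZMod 2) :
    XiL K P ((red K s0 np nm P).d φ) = K.del s0 (XiL K P φ) := by
  classical
  rw [XiL_apply, XiL_apply, map_sum]
  simp only [map_smul, chain1 hK s0 P, Finset.smul_sum]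
  rw [Finset.sum_comm]
  refine Finset.sum_congr rfl (fun y _ => ?_)
  rw [red_d_apply, Finset.sum_smul]
  refine Finset.sum_congr rfl (fun x _ => ?_)
  split_ifs <;> simp

theorem red_dd (hK : K.IsSys eta) (s0 : Bool) (np nm : ℤ) (P : E) (φ : RG K P → ZMod 2) :
    (red K s0 np nm P).d ((red K s0 np nm P).d φ) = 0 := by
  apply XiL_inj hK.toIsCore P
  rw [comm hK, comm hK, DD.del_del hK.toIsCore s0 (hGI hK s0) (hYY hK s0) _ (XiL_supp P φ)]

/-- internal degree of a generator -/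
noncomputable def dg (a : K.Gen) : ℤ := K.gr a - a.v.card

theorem coef_deg (hK : K.IsSys eta) (s0 : Bool) (P : E) (x y : RG K P)
    (h : K.Coef s0 x.1 y.1) : dg y.1 = dg x.1 - 2 := by
  classical
  by_contra hne
  obtain ⟨y0, hy0, hmin⟩ := Finset.exists_min_image
    (Finset.univ.filter fun y : RG K P => K.Coef s0 x.1 y.1 ∧ dg y.1 ≠ dg x.1 - 2)
    (fun g => g.1.v.card) ⟨y, by simp [h, hne]⟩
  simp only [Finset.mem_filter, Finset.mem_univ, true_and] at hy0 hmin
  obtain ⟨𝒟, h𝒟⟩ := H1.exists_word hK.toIsCore P y0.1 y0.2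
  have hXi : K.Xi P y0.1.v y0.1.s y0.1.v 𝒟 := (R2.xi_nrm P _ _ h𝒟.valid h𝒟.nrm).2 h𝒟
  have hdeg := (H1.deg_xi hK.toIsCore P y0.1 _ _ hXi).2
  -- value of del (XiV x) at this word
  have e0 : K.del s0 (K.XiV P x.1.v x.1.s) y0.1.v 𝒟 = 0 := by
    by_contra h0
    have := (H1.deg_del hK.toIsCore s0 (hN hK s0) (K.XiV P x.1.v x.1.s) 0 (dg x.1)
      (by
        intro v 𝒟 hv
        have hv' : K.Xi P x.1.v x.1.s v 𝒟 := by
          unfold Cube.XiV at hv
          by_contra hno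
          rw [if_neg hno] at hv
          exact hv rfl
        refine ⟨hv'.1, Nat.zero_le _, ?_⟩
        exact (H1.deg_xi hK.toIsCore P x.1 _ _ hv').2) _ _ h0).2
    apply hy0.2
    rw [dg, ← hdeg, this]
  rw [chain1 hK s0 P x] at e0
  rw [Finset.sum_apply, Finset.sum_apply, Finset.sum_eq_single y0] at e0
  · rw [if_pos hy0.1] at e0
    unfold Cube.XiV at e0
    rw [if_pos hXi] at e0
    exact absurd e0 (by decide)
  · intro b _ hb
    split_ifs with hc
    · unfold Cube.XiV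
      rw [if_neg]
      intro hbX
      obtain ⟨h1, h2⟩ := gen_eq P b y0 h𝒟 hbX
      have hdb := (H1.deg_xi hK.toIsCore P b.1 _ _ hbX).2
      have hbad : dg b.1 ≠ dg x.1 - 2 := by
        have : dg b.1 = dg y0.1 := by rw [dg, dg, ← hdb, ← hdeg]
        rw [this]; exact hy0.2
      have := hmin b ⟨hc, hbad⟩
      have h3 : b.1.v = y0.1.v := Finset.eq_of_subset_of_card_le h1 this
      exact hb (h2 h3)
    · rfl
  · intro h'; exact absurd (Finset.mem_univ _) h'

end

section pages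
variable (hK : K.IsSys eta) (s0 : Bool) (np nm : ℤ) (P : E)

theorem mem_redG (a b : ℤ) (φ : RG K P → ZMod 2) :
    φ ∈ (red K s0 np nm P).G a b ↔ ∀ g : RG K P, φ g ≠ 0 →
      a ≤ (g.1.v.card : ℤ) - nm ∧ dg g.1 + np + 1 = b := by
  constructor
  · intro h g hg
    obtain ⟨h1, h2⟩ := h g hg
    refine ⟨h1, ?_⟩
    rw [← h2]
    simp only [red, Cube.reduced, dg]
    ring
  · intro h g hg
    obtain ⟨h1, h2⟩ := h g hg
    refine ⟨h1, ?_⟩
    rw [← h2]
    simp only [red, Cube.reduced, dg]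
    ring

theorem red_d_mem (hK : K.IsSys eta) (s0 : Bool) (np nm : ℤ) (P : E) (a b : ℤ)
    (φ : RG K P → ZMod 2) (h : φ ∈ (red K s0 np nm P).G a b) :
    (red K s0 np nm P).d φ ∈ (red K s0 np nm P).G (a + 1) (b - 2) := by
  classical
  have h := (mem_redG s0 np nm P a b φ).1 h
  refine (mem_redG s0 np nm P (a + 1) (b - 2) _).2 ?_
  intro y hy
  rw [red_d_apply] at hy
  obtain ⟨x, _, hx⟩ := Finset.exists_ne_zero_of_sum_ne_zero hy
  split_ifs at hx with hc
  · obtain ⟨h1, h2⟩ := h x hx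
    have h3 := coef_deg hK s0 P x y hc
    have h4 := Finset.card_lt_card hc.1
    constructor
    · have : (x.1.v.card : ℤ) + 1 ≤ y.1.v.card := by exact_mod_cast h4
      omega
    · omega
  · exact absurd rfl hx

theorem redG_anti (a b : ℤ) : (red K s0 np nm P).G (a + 1) b ≤ (red K s0 np nm P).G a b := by
  intro φ h g hg
  obtain ⟨h1, h2⟩ := h g hg
  exact ⟨by omega, h2⟩

theorem barG_anti (np nm a b : ℤ) : K.barG np nm (a + 1) b ≤ K.barG np nm a b := by
  intro φ h
  refine ⟨fun v 𝒟 hv => ?_, h.2⟩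
  obtain ⟨h1, h2, h3⟩ := h.1 v 𝒟 hv
  exact ⟨h1, by omega, h3⟩

theorem del_mem (hK : K.IsSys eta) (s0 : Bool) (np nm a b : ℤ) (ψ : W X E)
    (h : ψ ∈ K.barG np nm a b) : K.del s0 ψ ∈ K.barG np nm a (b - 2) := by
  have hsupp : K.Supp ψ := fun v 𝒟 hv => (h.1 v 𝒟 hv).1
  refine ⟨fun u 𝒟 hu => ?_, R2.del_rot hK.toIsCore s0 ψ hsupp h.2⟩
  have h1 := DD.del_supp hK.toIsCore s0 ψ hsupp u 𝒟 hu
  have h2 := H1.deg_del hK.toIsCore s0 (hN hK s0) ψ (a + nm).toNat (b - np - 1) (by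
    intro v 𝒟 hv
    obtain ⟨e1, e2, e3⟩ := h.1 v 𝒟 hv
    refine ⟨e1, ?_, by omega⟩
    rw [Int.toNat_le]; omega) u 𝒟 hu
  refine ⟨h1, ?_, by omega⟩
  have := h2.1
  rw [Int.toNat_le] at this
  omega

theorem XiL_mem (hK : K.IsSys eta) (s0 : Bool) (np nm : ℤ) (P : E) (a b : ℤ)
    (φ : RG K P → ZMod 2) (h : φ ∈ (red K s0 np nm P).G a b) :
    XiL K P φ ∈ K.barG np nm a b := by
  classical
  have h := (mem_redG s0 np nm P a b φ).1 h
  refine ⟨fun u 𝒟 hu => ⟨XiL_supp P φ u 𝒟 hu, ?_⟩, XiL_rot P φ⟩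
  rw [XiL_app] at hu
  obtain ⟨x, _, hx⟩ := Finset.exists_ne_zero_of_sum_ne_zero hu
  split_ifs at hx with hc
  · obtain ⟨h1, h2⟩ := h x hx
    obtain ⟨h3, h4⟩ := H1.deg_xi hK.toIsCore P x.1 u 𝒟 hc
    have h5 : (x.1.v.card : ℤ) ≤ u.card := by exact_mod_cast Finset.card_le_card h3
    refine ⟨by omega, ?_⟩
    rw [h4]; exact h2
  · exact absurd rfl hx

open Classical in
/-- the differential at the lowest filtration level -/
theorem del_low (ψ : W X E) (v : Finset X) (h : ∀ w, w ⊂ v → ∀ 𝒟, ψ w 𝒟 = 0)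
    (𝒟 : Finset (Finset E)) : K.del s0 ψ v 𝒟 =
      ∑ D ∈ Finset.univ.filter (fun D => D ∉ 𝒟), ψ v (insert D 𝒟) := by
  show K.delF s0 ψ v 𝒟 = _
  unfold Cube.delF
  rw [Finset.sum_eq_single v]
  · have h1 : v \ v = ∅ := Finset.sdiff_self v
    have h2 : ¬ K.AC s0 v ∅ := by
      rintro (⟨⟨x, hx⟩, _⟩ | ⟨A, B, hAB, _, ⟨x, hx⟩, _⟩)
      · simp at hx
      · have : x ∈ A ∪ B := Finset.mem_union_left _ hx
        rw [hAB] at this; simp at this
    rw [h1]
    simp [h2]
  · intro w hw hne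
    have hlt : w ⊂ v := Finset.ssubset_iff_subset_ne.2 ⟨Finset.mem_powerset.1 hw, hne⟩
    simp [h w hlt]
  · intro h'; exact absurd (Finset.mem_powerset.2 (Finset.Subset.refl v)) h'

theorem surj1 (hK : K.IsSys eta) (s0 : Bool) (np nm : ℤ) (P : E) (a b : ℤ) (y : W X E)
    (hy : y ∈ K.barG np nm a b) (hdy : K.del s0 y ∈ K.barG np nm (a + 1) (b - 2)) :
    ∃ x ∈ (red K s0 np nm P).G a b, (red K s0 np nm P).d x ∈ (red K s0 np nm P).G (a + 1) (b - 2) ∧
      ∃ z ∈ K.barG np nm a (b + 2), y - XiL K P x - K.del s0 z ∈ K.barG np nm (a + 1) b := by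
  classical
  -- vertexwise
  have hlow : ∀ v : Finset X, (v.card : ℤ) - nm = a → ∀ w, w ⊂ v → ∀ 𝒟, y w 𝒟 = 0 := by
    intro v hv w hw 𝒟
    by_contra h0
    obtain ⟨_, h1, _⟩ := hy.1 w 𝒟 h0
    have := Finset.card_lt_card hw
    omega
  have hvert : ∀ v : Finset X, ∃ (x : (E → Bool) → ZMod 2) (z : Finset (Finset E) → ZMod 2),
      (v.card : ℤ) - nm = a →
      (∀ s, x s ≠ 0 → (∀ p q, K.same v p q → s p = s q) ∧ s P = false ∧
        ∃ 𝒟, K.Xi P v s v 𝒟 ∧ 2 * (𝒟.card : ℤ) - K.num v - v.card + np + 1 = b) ∧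
      (∀ 𝒟, z 𝒟 ≠ 0 → K.Valid v 𝒟 ∧ 2 * (𝒟.card : ℤ) - K.num v - v.card + np + 1 = b + 2) ∧
      (∀ 𝒟 D, K.Valid v 𝒟 → D ∈ 𝒟 → z (rho D 𝒟) = z 𝒟) ∧
      ∀ 𝒟, K.Valid v 𝒟 → y v 𝒟 = (∑ s : E → Bool, if K.Xi P v s v 𝒟 then x s else 0) +
        ∑ D ∈ Finset.univ.filter (fun D => D ∉ 𝒟), z (insert D 𝒟) := by
    intro v
    by_cases hv : (v.card : ℤ) - nm = a
    · by_cases hex : ∃ 𝒟, y v 𝒟 ≠ 0
      · obtain ⟨𝒟0, h𝒟0⟩ := hex
        have hk := (hy.1 v 𝒟0 h𝒟0).2.2
        obtain ⟨x, z, hx, hz, hzr, hyx⟩ := T1.tor_surj hK.toIsCore P v 𝒟0.card (fun 𝒟 => y v 𝒟)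
          (by
            intro 𝒟 h
            obtain ⟨h1, _, h3⟩ := hy.1 v 𝒟 h
            refine ⟨h1, ?_⟩
            omega)
          (fun 𝒟 D h1 h2 => hy.2 v 𝒟 D h1 h2)
          (by
            intro 𝒟 h𝒟
            rw [← del_low s0 y v (hlow v hv) 𝒟]
            by_contra h0
            obtain ⟨_, h1, _⟩ := hdy.1 v 𝒟 h0
            omega)
        refine ⟨x, z, fun _ => ⟨?_, ?_, hzr, hyx⟩⟩
        · intro s hs
          obtain ⟨h1, h2, 𝒟, h3, h4⟩ := hx s hs
          exact ⟨h1, h2, 𝒟, h3, by rw [h4]; exact hk⟩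
        · intro 𝒟 h
          obtain ⟨h1, h2⟩ := hz 𝒟 h
          refine ⟨h1, ?_⟩
          rw [h2]; push_cast; omega
      · push Not at hex
        refine ⟨fun _ => 0, fun _ => 0, fun _ => ⟨fun s h => absurd rfl h,
          fun 𝒟 h => absurd rfl h, fun _ _ _ _ => rfl, ?_⟩⟩
        intro 𝒟 _
        rw [hex 𝒟]
        simp
    · exact ⟨fun _ => 0, fun _ => 0, fun h => absurd h hv⟩
  choose xv zv hxz using hvert
  let x : RG K P → ZMod 2 := fun g => if (g.1.v.card : ℤ) - nm = a then xv g.1.v g.1.s else 0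
  let z : W X E := fun v 𝒟 => if (v.card : ℤ) - nm = a then zv v 𝒟 else 0
  have hx : x ∈ (red K s0 np nm P).G a b := by
    refine (mem_redG s0 np nm P a b x).2 ?_
    intro g hg
    by_cases hv : (g.1.v.card : ℤ) - nm = a
    · have hg' : xv g.1.v g.1.s ≠ 0 := by
        intro h0; apply hg; simp only [x]; rw [if_pos hv, h0]
      obtain ⟨h1, h2, 𝒟, h3, h4⟩ := (hxz g.1.v hv).1 g.1.s hg'
      refine ⟨by omega, ?_⟩
      have := (H1.deg_xi hK.toIsCore P g.1 _ _ h3).2
      rw [dg, ← this]; exact h4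
    · exact absurd (by simp only [x]; rw [if_neg hv]) hg
  have hz : z ∈ K.barG np nm a (b + 2) := by
    refine ⟨fun v 𝒟 h => ?_, fun v 𝒟 D h1 h2 => ?_⟩
    · by_cases hv : (v.card : ℤ) - nm = a
      · have h' : zv v 𝒟 ≠ 0 := by
          intro h0; apply h; simp only [z]; rw [if_pos hv, h0]
        obtain ⟨e1, e2⟩ := (hxz v hv).2.1 𝒟 h'
        exact ⟨e1, by omega, e2⟩
      · exact absurd (by simp only [z]; rw [if_neg hv]) h
    · simp only [z]
      by_cases hv : (v.card : ℤ) - nm = a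
      · rw [if_pos hv, if_pos hv, (hxz v hv).2.2.1 𝒟 D h1 h2]
      · rw [if_neg hv, if_neg hv]
  refine ⟨x, hx, red_d_mem hK s0 np nm P a b x hx, z, hz, ?_⟩
  have hmem : y - XiL K P x - K.del s0 z ∈ K.barG np nm a b := by
    refine Submodule.sub_mem _ (Submodule.sub_mem _ hy (XiL_mem hK s0 np nm P a b x hx)) ?_
    have := del_mem hK s0 np nm a (b + 2) z hz
    rwa [add_sub_cancel_right] at this
  refine ⟨fun v 𝒟 hne => ?_, hmem.2⟩
  obtain ⟨h1, h2, h3⟩ := hmem.1 v 𝒟 hne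
  refine ⟨h1, ?_, h3⟩
  by_contra hlt
  have hv : (v.card : ℤ) - nm = a := by omega
  apply hne
  have e1 : XiL K P x v 𝒟 = ∑ s : E → Bool, if K.Xi P v s v 𝒟 then xv v s else 0 := by
    rw [XiL_app]
    -- compare the sums
    have key : ∀ g : RG K P, (if K.Xi P g.1.v g.1.s v 𝒟 then x g else 0) =
        if K.Xi P g.1.v g.1.s v 𝒟 ∧ g.1.v = v then xv v g.1.s else 0 := by
      intro g
      by_cases hX : K.Xi P g.1.v g.1.s v 𝒟
      · by_cases hgv : g.1.v = v
        · rw [if_pos hX, if_pos ⟨hX, hgv⟩]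
          simp only [x]
          rw [hgv, if_pos hv]
        · rw [if_pos hX, if_neg (fun h => hgv h.2)]
          have hsub := (H1.deg_xi hK.toIsCore P g.1 _ _ hX).1
          have hlt := Finset.card_lt_card (Finset.ssubset_iff_subset_ne.2 ⟨hsub, hgv⟩)
          simp only [x]
          rw [if_neg (by omega)]
      · rw [if_neg hX, if_neg (fun h => hX h.1)]
    rw [Finset.sum_congr rfl (fun g _ => key g)]
    rw [← Finset.sum_filter, ← Finset.sum_filter_ne_zero]
    conv_rhs => rw [← Finset.sum_filter, ← Finset.sum_filter_ne_zero]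
    refine Finset.sum_bij' (fun g _ => g.1.s)
      (fun s hs => ⟨⟨v, s, ((hxz v hv).1 s (by
        simp only [Finset.mem_filter] at hs; exact hs.2)).1⟩, ((hxz v hv).1 s (by
        simp only [Finset.mem_filter] at hs; exact hs.2)).2.1⟩) ?_ ?_ ?_ ?_ ?_
    · intro g hg
      simp only [Finset.mem_filter, Finset.mem_univ, true_and] at hg ⊢
      obtain ⟨⟨h1, h2⟩, h3⟩ := hg
      rw [h2] at h1
      exact ⟨h1, h3⟩
    · intro s hs
      simp only [Finset.mem_filter, Finset.mem_univ, true_and] at hs ⊢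
      exact ⟨⟨hs.1, trivial⟩, hs.2⟩
    · intro g hg
      simp only [Finset.mem_filter, Finset.mem_univ, true_and] at hg
      obtain ⟨⟨gv, gs, ginv⟩, gP⟩ := g
      obtain ⟨⟨_, h2⟩, _⟩ := hg
      simp only at h2
      subst h2
      rfl
    · intro s hs; rfl
    · intro g hg; rfl
  have e2 : K.del s0 z v 𝒟 = ∑ D ∈ Finset.univ.filter (fun D => D ∉ 𝒟), zv v (insert D 𝒟) := by
    rw [del_low s0 z v]
    · refine Finset.sum_congr rfl (fun D _ => ?_)
      simp only [z]
      rw [if_pos hv]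
    · intro w hw 𝒟
      simp only [z]
      have := Finset.card_lt_card hw
      rw [if_neg (by omega)]
  show y v 𝒟 - XiL K P x v 𝒟 - K.del s0 z v 𝒟 = 0
  rw [(hxz v hv).2.2.2 𝒟 h1, e1, e2]
  ring

theorem inj1 (hK : K.IsSys eta) (s0 : Bool) (np nm : ℤ) (P : E) (a b : ℤ)
    (x : RG K P → ZMod 2) (hx : x ∈ (red K s0 np nm P).G a b) (z : W X E)
    (hz : z ∈ K.barG np nm a (b + 2)) (h : XiL K P x - K.del s0 z ∈ K.barG np nm (a + 1) b) :
    x ∈ (red K s0 np nm P).G (a + 1) b := by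
  classical
  have hx := (mem_redG s0 np nm P a b x).1 hx
  refine (mem_redG s0 np nm P (a + 1) b x).2 ?_
  intro g hg
  obtain ⟨h1, h2⟩ := hx g hg
  refine ⟨?_, h2⟩
  by_contra hlt
  have hv : (g.1.v.card : ℤ) - nm = a := by omega
  set v := g.1.v with hvdef
  let xs : (E → Bool) → ZMod 2 := fun s =>
    if hs : (∀ p q, K.same v p q → s p = s q) ∧ s P = false then x ⟨⟨v, s, hs.1⟩, hs.2⟩ else 0
  have h0 : xs = 0 := by
    refine T1.tor_inj hK.toIsCore P v xs (fun 𝒟 => z v 𝒟) ?_ ?_ ?_ ?_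
    · intro s hs
      by_contra hno
      exact hs (dif_neg hno)
    · intro 𝒟 h𝒟; exact (hz.1 v 𝒟 h𝒟).1
    · intro 𝒟 D h1 h2; exact hz.2 v 𝒟 D h1 h2
    · intro 𝒟 h𝒟
      have e0 : (XiL K P x - K.del s0 z) v 𝒟 = 0 := by
        by_contra hne
        have := (h.1 v 𝒟 hne).2.1
        omega
      have e1 : XiL K P x v 𝒟 = ∑ s : E → Bool, if K.Xi P v s v 𝒟 then xs s else 0 := by
        rw [XiL_app]
        have key : ∀ g : RG K P, (if K.Xi P g.1.v g.1.s v 𝒟 then x g else 0) =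
            if K.Xi P g.1.v g.1.s v 𝒟 ∧ g.1.v = v then xs g.1.s else 0 := by
          intro g
          by_cases hX : K.Xi P g.1.v g.1.s v 𝒟
          · by_cases hgv : g.1.v = v
            · rw [if_pos hX, if_pos ⟨hX, hgv⟩]
              obtain ⟨⟨gv, gs, ginv⟩, gP⟩ := g
              simp only at hgv
              subst hgv
              simp only [xs]
              rw [dif_pos ⟨ginv, gP⟩]
            · rw [if_pos hX, if_neg (fun h => hgv h.2)]
              have hsub := (H1.deg_xi hK.toIsCore P g.1 _ _ hX).1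
              have hlt := Finset.card_lt_card (Finset.ssubset_iff_subset_ne.2 ⟨hsub, hgv⟩)
              by_contra hne
              have := (hx g hne).1
              omega
          · rw [if_neg hX, if_neg (fun h => hX h.1)]
        rw [Finset.sum_congr rfl (fun g _ => key g)]
        rw [← Finset.sum_filter, ← Finset.sum_filter_ne_zero]
        conv_rhs => rw [← Finset.sum_filter, ← Finset.sum_filter_ne_zero]
        have hxs : ∀ s, xs s ≠ 0 → (∀ p q, K.same v p q → s p = s q) ∧ s P = false := by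
          intro s hs
          by_contra hno
          exact hs (dif_neg hno)
        refine Finset.sum_bij' (fun g _ => g.1.s)
          (fun s hs => ⟨⟨v, s, (hxs s (by
            simp only [Finset.mem_filter] at hs; exact hs.2)).1⟩, (hxs s (by
            simp only [Finset.mem_filter] at hs; exact hs.2)).2⟩) ?_ ?_ ?_ ?_ ?_
        · intro g hg
          simp only [Finset.mem_filter, Finset.mem_univ, true_and] at hg ⊢
          obtain ⟨⟨h1, h2⟩, h3⟩ := hg
          rw [h2] at h1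
          exact ⟨h1, h3⟩
        · intro s hs
          simp only [Finset.mem_filter, Finset.mem_univ, true_and] at hs ⊢
          exact ⟨⟨hs.1, trivial⟩, hs.2⟩
        · intro g hg
          simp only [Finset.mem_filter, Finset.mem_univ, true_and] at hg
          obtain ⟨⟨gv, gs, ginv⟩, gP⟩ := g
          obtain ⟨⟨_, h2⟩, _⟩ := hg
          simp only at h2
          subst h2
          rfl
        · intro s hs; rfl
        · intro g hg; rfl
      have e2 : K.del s0 z v 𝒟 = ∑ D ∈ Finset.univ.filter (fun D => D ∉ 𝒟), z v (insert D 𝒟) := by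
        rw [del_low s0 z v]
        intro w hw 𝒟
        by_contra hne
        have := (hz.1 w 𝒟 hne).2.1
        have := Finset.card_lt_card hw
        omega
      rw [← e1, ← e2]
      exact sub_eq_zero.1 e0
  apply hg
  have := congrFun h0 g.1.s
  simp only [xs, Pi.zero_apply] at this
  rw [dif_pos ⟨g.1.inv, g.2⟩] at this
  exact this

/-- The pages of the reduced complex do not depend on the basepoint: they are the pages of the bar
complex. -/
theorem page_red_bar (hK : K.IsSys eta) (s0 : Bool) (np nm : ℤ) (P : E) (k : ℕ) (hk : 1 ≤ k)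
    (a b : ℤ) : Nonempty ((K.reduced s0 np nm P).fc.Page k a b ≃ₗ[ZMod 2]
      (K.bar s0 np nm).Page k a b) := by
  refine F1.page_iso (K.reduced s0 np nm P).fc (K.bar s0 np nm) (XiL K P)
    (fun a b => redG_anti s0 np nm P a b) (fun a b => barG_anti np nm a b)
    (fun a b x hx => ?_) (fun a b x hx => del_mem hK s0 np nm a b x hx)
    (fun a b x hx => red_dd hK s0 np nm P x)
    (fun a b x hx => DD.del_del hK.toIsCore s0 (hGI hK s0) (hYY hK s0) x
      (fun v 𝒟 h => (hx.1 v 𝒟 h).1))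
    (fun a b x hx => XiL_mem hK s0 np nm P a b x hx)
    (fun a b x hx => comm hK s0 np nm P x)
    (fun a b y hy hdy => surj1 hK s0 np nm P a b y hy hdy)
    (fun a b x hx hdx z hz h => ⟨0, Submodule.zero_mem _, ?_⟩) k hk a b
  · exact redG_anti s0 np nm P a _ (red_d_mem hK s0 np nm P a b x hx)
  · rw [map_zero, sub_zero]
    exact inj1 hK s0 np nm P a b x hx z hz h

end pages

/-! ### The main theorem for abstract systems -/

theorem main_sys (hK : K.IsSys eta) (s0 : Bool) (np nm : ℤ) (P : E) (k : ℕ) (hk : 1 ≤ k)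
    (h q : ℤ) : Nonempty ((K.full s0 np nm).PageHQ k h q ≃ₗ[ZMod 2]
      (K.reduced s0 np nm P).PageHQ k h (q + 1) × (K.reduced s0 np nm P).PageHQ k h (q - 1)) := by
  have hK' := A1.isSys hK
  obtain ⟨e1⟩ := A1.full_congr K s0 np nm k h q
  obtain ⟨e2⟩ := page_red_bar hK' s0 np nm none k hk h (q - 2 * h)
  obtain ⟨e3⟩ := page_red_bar hK' s0 np nm (some P) k hk h (q - 2 * h)
  obtain ⟨e4⟩ := A1.red_split K s0 np nm P k h q
  exact ⟨e1.trans (e2.trans (e3.symm.trans e4))⟩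

theorem main_dd (hK : K.IsSys eta) (s0 : Bool) (np nm : ℤ) (φ : K.Gen → ZMod 2) :
    (K.full s0 np nm).d ((K.full s0 np nm).d φ) = 0 :=
  A1.full_dd K s0 np nm (fun φ => red_dd (A1.isSys hK) s0 np nm none φ) φ

/-! ### Link diagrams -/

theorem diagram_isSys (D : LinkDiagram) (t : Fin D.n → Bool) (rot : Bool) :
    ∃ eta, (D.cube t rot).IsSys eta := by
  classical
  obtain ⟨o, ho⟩ := P5.exists_checker D
  have hcore := P2.isCore D o ho t rot
  have hsides := P3.sides (K := D.cube t rot) hcore _ (P4.count D o ho t rot _ rfl) (D.eta o rot) (by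
    intro c c'
    simp only [LinkDiagram.eta, Finset.mem_filter, Finset.mem_univ, true_and]
    cases rot <;> cases o (c, 0) <;> cases o (c', 0) <;> simp)
  exact ⟨D.eta o rot, { hcore with
    tele := P2.tele D o ho t rot
    side2 := hsides.2
    side1 := hsides.1 }⟩

theorem main (D : LinkDiagram) (o : D.Orient) (t : Fin D.n → Bool) (rot s0 : Bool)
    (P : D.Point) :
    (∀ φ, (D.szabo o t rot s0).d ((D.szabo o t rot s0).d φ) = 0) ∧
    ∀ k : ℕ, 2 ≤ k → ∀ h q : ℤ, Nonempty ((D.szabo o t rot s0).PageHQ k h q ≃ₗ[ZMod 2]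
      (D.szaboRed o t rot s0 P).PageHQ k h (q + 1) ×
        (D.szaboRed o t rot s0 P).PageHQ k h (q - 1)) := by
  obtain ⟨eta, hK⟩ := diagram_isSys D t rot
  exact ⟨fun φ => main_dd hK s0 _ _ φ, fun k hk h q => main_sys hK s0 _ _ P k (by omega) h q⟩

end Main
end Pool.Agent.helper20.Sz
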